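import Pool.Agent.J6H54.CH.All
import Pool.Agent.J6H54.CH.Stm2
import Pool.Agent.J6H77.CH.M32
import Pool.Agent.J6H3.CH.M33
import Pool.Agent.J6H74.CH.M34

/-!
# Ascending HNN extensions of `ℤⁿ`: the conjugacy growth series is transcendental for every finite
generating set
-/

set_option autoImplicit false

namespace Pool.Agent.Results.MP_a1853d_al.AscendingHNN

open Pool.Agent.J6H54.CH

/-- Let `B` be an integral square matrix of size `n + 1` with nonzero determinant and no complex
eigenvalue of modulus one, and let `G` be isomorphic to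
`⟨x_0, …, x_n, t | [x_i, x_j], t x_i t⁻¹ = ∏_j x_j ^ (B j i)⟩`.  For every finite generating set `S` of
`G` the conjugacy growth series of `(G, S)` is transcendental. -/
theorem result (n : ℕ) (B : Matrix (Fin (n + 1)) (Fin (n + 1)) ℤ) (hB : B.det ≠ 0)
    (hyp : ∀ μ : ℂ, (B.charpoly.map (Int.castRingHom ℂ)).IsRoot μ → ‖μ‖ ≠ 1)
    (G : Type) [Group G]
    (iso : G ≃* PresentedGroup
      ({r : FreeGroup (Option (Fin (n + 1))) | ∃ i j : Fin (n + 1),
          r = FreeGroup.of (some i) * FreeGroup.of (some j) *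
            (FreeGroup.of (some i))⁻¹ * (FreeGroup.of (some j))⁻¹} ∪
        {r : FreeGroup (Option (Fin (n + 1))) | ∃ i : Fin (n + 1),
          r = FreeGroup.of none * FreeGroup.of (some i) * (FreeGroup.of none)⁻¹ *
            ((List.ofFn fun j => FreeGroup.of (some j) ^ B j i).prod)⁻¹}))
    (S : Finset G) (hS : Subgroup.closure (S : Set G) = ⊤) :
    ¬ ∃ P : Polynomial (Polynomial ℚ), P ≠ 0 ∧
      Polynomial.eval₂ Polynomial.coeToPowerSeries.ringHom
        (PowerSeries.mk (fun m : ℕ =>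
          ((Set.ncard {c : ConjClasses G |
            (∃ g : G, ConjClasses.mk g = c ∧
              ∃ l : List G, l.length ≤ m ∧ (∀ x ∈ l, x ∈ S ∨ x⁻¹ ∈ S) ∧ l.prod = g) ∧
            (∀ g : G, ConjClasses.mk g = c → ∀ l : List G, (∀ x ∈ l, x ∈ S ∨ x⁻¹ ∈ S) →
              l.prod = g → m ≤ l.length)} : ℕ) : ℚ)))
        P = 0 := by
  obtain ⟨f, hf⟩ := Pool.Agent.J6H74.CH34.m34 (n + 1) B hB
  obtain ⟨p, q, κ, M, C0, H⟩ := Pool.Agent.J6H3.CH33.m33 Pool.Agent.J6H77.CH32.m32 n B hB hyp
  let iso' : G ≃* PresentedGroup (hnnRel B) := iso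
  have hf' : Mdl (sig B hB) G (fun g => f (iso' g)) := by
    refine ⟨fun g h => ?_, hf.bij.comp iso'.bijective⟩
    rw [map_mul iso' g h]; exact hf.map_mul _ _
  exact all (Lam B) (sig B hB) p q κ M C0 H G (fun g => f (iso' g)) hf' S hS

end Pool.Agent.Results.MP_a1853d_al.AscendingHNN
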